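import Pool.Agent.Helper92.RECT.Goals6
import Pool.Agent.Helper30.RECT.REAL

/-!
# RECT, packet WND: machines with one tape and their time in windows of the tape
-/

namespace Pool.Agent.Helper50.RECT

open Pool.Agent.Helper65.LinSpace Pool.Agent.Helper78.Mpc Pool.Agent.Helper28.Ram
open Pool.Agent.Helper92.RECT
open Pool.Agent.Helper65.OH
open Pool.Agent.Helper81.Sus2 (Decomp)
open Pool.Agent.Helper28.OHS (Box Short)

/-! ### Bounds -/

theorem pow6_step {l : ℕ} (h : 9 ≤ l) : (l + 1) ^ 6 ≤ 2 * l ^ 6 := by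
  have h1 : 9 * (l + 1) ≤ 10 * l := by omega
  have h2 : (9 * (l + 1)) ^ 6 ≤ (10 * l) ^ 6 := Nat.pow_le_pow_left h1 6
  rw [Nat.mul_pow, Nat.mul_pow] at h2
  norm_num at h2
  omega

theorem pow6 (l : ℕ) : l ^ 6 ≤ 1100 * 2 ^ l := by
  rcases Nat.lt_or_ge l 9 with h | h
  · interval_cases l <;> norm_num
  · induction l, h using Nat.le_induction with
    | base => norm_num
    | succ l hl ih =>
      have h1 := pow6_step hl
      rw [pow_succ 2 l]
      omega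

theorem two_pow_log (n : ℕ) : 2 ^ (Nat.log 2 n + 1) ≤ 2 * (n + 1) := by
  rcases Nat.eq_zero_or_pos n with h | h
  · subst h
    simp
  · have h1 := Nat.pow_log_le_self 2 h.ne'
    rw [pow_succ]
    omega

theorem add_two_le (n : ℕ) : n + 2 ≤ 2 ^ (2 * (Nat.log 2 n + 1)) := by
  have h1 : n < 2 ^ (Nat.log 2 n + 1) := Nat.lt_pow_succ_log_self (by norm_num) n
  have h2 : 2 ≤ 2 ^ (Nat.log 2 n + 1) := by
    rw [pow_succ]
    have := Nat.one_le_two_pow (n := Nat.log 2 n)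
    omega
  rw [mul_comm 2, pow_mul]
  generalize 2 ^ (Nat.log 2 n + 1) = q at h1 h2
  nlinarith

/-! ### The crossings of hyperplanes -/

section core

variable {pos : ℕ → ℤ}

theorem few {r B X : ℕ} (hstep : ∀ u, pos u - 1 ≤ pos (u + 1) ∧ pos (u + 1) ≤ pos u + 1)
    (hB : 0 < B) (hwin : ∀ z : ℤ, {u : ℕ | u < r ∧ z ≤ pos u ∧ pos u < z + B}.ncard ≤ X)
    {t t' : ℕ} (ht : t' ≤ r) (j : ℤ) : ∃ Q : ℤ, j * B < Q ∧ Q ≤ (j + 1) * B ∧
      {u : ℕ | t ≤ u ∧ u < t' ∧ ¬(pos u < Q ↔ pos (u + 1) < Q)}.ncard ≤ 2 * X / B := by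
  classical
  by_contra hcon
  let W : ℤ → Finset ℕ := fun z => (Finset.range r).filter fun u => z ≤ pos u ∧ pos u < z + B
  have hW : ∀ z, (W z).card ≤ X := by
    intro z
    have e : ((W z : Finset ℕ) : Set ℕ) = {u : ℕ | u < r ∧ z ≤ pos u ∧ pos u < z + B} := by
      ext u
      simp [W]
    rw [← Set.ncard_coe_finset, e]
    exact hwin z
  let F : ℕ → Finset ℕ := fun i => (Finset.Ico t t').filter fun u =>
    ¬(pos u < j * B + 1 + i ↔ pos (u + 1) < j * B + 1 + i)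
  have hF : ∀ i ∈ Finset.range B, 2 * X / B + 1 ≤ (F i).card := by
    intro i hi
    have hi' := Finset.mem_range.1 hi
    have h1 := fun h => hcon ⟨j * B + 1 + i, by omega, by
      have : (j + 1) * (B : ℤ) = j * B + B := by ring
      omega, h⟩
    have e : ((F i : Finset ℕ) : Set ℕ) =
        {u : ℕ | t ≤ u ∧ u < t' ∧ ¬(pos u < j * B + 1 + i ↔ pos (u + 1) < j * B + 1 + i)} := by
      ext u
      simp [F, and_assoc]
    rw [← Set.ncard_coe_finset, e]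
    exact Nat.succ_le_of_lt (not_le.1 h1)
  have hdis : Set.PairwiseDisjoint ((Finset.range B : Finset ℕ) : Set ℕ) F := by
    intro i _ i' _ hne
    rw [Function.onFun, Finset.disjoint_left]
    intro u hu hu'
    have h1 := (Finset.mem_filter.1 hu).2
    have h2 := (Finset.mem_filter.1 hu').2
    have h3 := hstep u
    exact hne (by omega)
  have hsub : (Finset.range B).biUnion F ⊆ W (j * B) ∪ W ((j + 1) * B) := by
    intro u hu
    obtain ⟨i, hi, hu⟩ := Finset.mem_biUnion.1 hu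
    have hi' := Finset.mem_range.1 hi
    obtain ⟨h1, h2⟩ := Finset.mem_filter.1 hu
    have h3 := hstep u
    have h4 := (Finset.mem_Ico.1 h1).2
    have h5 : (j + 1) * (B : ℤ) = j * B + B := by ring
    rw [Finset.mem_union]
    rcases lt_or_ge (pos u) (j * B + B) with h | h
    · exact Or.inl (Finset.mem_filter.2 ⟨Finset.mem_range.2 (by omega), by omega, h⟩)
    · exact Or.inr (Finset.mem_filter.2 ⟨Finset.mem_range.2 (by omega), by omega, by omega⟩)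
  have h1 : B * (2 * X / B + 1) ≤ 2 * X := by
    calc B * (2 * X / B + 1) = ∑ _i ∈ Finset.range B, (2 * X / B + 1) := by simp
      _ ≤ ∑ i ∈ Finset.range B, (F i).card := Finset.sum_le_sum hF
      _ = ((Finset.range B).biUnion F).card := (Finset.card_biUnion hdis).symm
      _ ≤ (W (j * B) ∪ W ((j + 1) * B)).card := Finset.card_le_card hsub
      _ ≤ (W (j * B)).card + (W ((j + 1) * B)).card := Finset.card_union_le _ _
      _ ≤ X + X := Nat.add_le_add (hW _) (hW _)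
      _ = 2 * X := by ring
  exact absurd h1 (not_le.2 (Nat.lt_mul_div_succ (2 * X) hB))

theorem win2 {r B X : ℕ} (hwin : ∀ z : ℤ, {u : ℕ | u < r ∧ z ≤ pos u ∧ pos u < z + B}.ncard ≤ X)
    {j P P' : ℤ} (h1 : j * B < P) (h2 : P' ≤ (j + 2) * B) (S : Set ℕ)
    (hS : ∀ u ∈ S, u < r ∧ P ≤ pos u ∧ pos u < P') : S.ncard ≤ 2 * X := by
  have hf : ∀ z : ℤ, {u : ℕ | u < r ∧ z ≤ pos u ∧ pos u < z + B}.Finite := fun z =>
    (Set.finite_lt_nat r).subset fun _ hu => hu.1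
  have hsub : S ⊆ {u : ℕ | u < r ∧ j * B ≤ pos u ∧ pos u < j * B + B} ∪
      {u : ℕ | u < r ∧ (j + 1) * B ≤ pos u ∧ pos u < (j + 1) * B + B} := by
    intro u hu
    obtain ⟨h3, h4, h5⟩ := hS u hu
    have e1 : (j + 1) * (B : ℤ) = j * B + B := by ring
    have e2 : (j + 2) * (B : ℤ) = j * B + B + B := by ring
    rcases lt_or_ge (pos u) (j * B + B) with h | h
    · exact Or.inl ⟨h3, by omega, h⟩
    · exact Or.inr ⟨h3, by omega, by omega⟩
  calc S.ncard ≤ _ := Set.ncard_le_ncard hsub ((hf _).union (hf _))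
    _ ≤ _ := Set.ncard_union_le _ _
    _ ≤ X + X := Nat.add_le_add (hwin _) (hwin _)
    _ = 2 * X := by ring

end core

theorem pos_bd (A : OneHead 1) (w y : List Bool) (u : ℕ) :
    -(u : ℤ) ≤ fst (A.conf w y u).h ∧ fst (A.conf w y u).h ≤ u := by
  induction u with
  | zero =>
    have h : fst (A.conf w y 0).h = 0 := rfl
    rw [h]
    simp
  | succ u ih =>
    have h := Pool.Agent.Helper30.RECT.fst_step one_pos A w y (A.conf w y u)
    have h2 : A.conf w y (u + 1) = A.step w y (A.conf w y u) := rfl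
    rw [h2]
    push_cast
    omega

theorem cut (A : OneHead 1) (w y : List Bool) {r B X R : ℕ} (hB : 0 < B) (hBR : B ≤ 2 ^ R)
    (hr : r ≤ 2 ^ R) (hwin : ∀ z : ℤ,
      {u : ℕ | u < r ∧ z ≤ fst (A.conf w y u).h ∧ fst (A.conf w y u).h < z + B}.ncard ≤ X)
    {t t' : ℕ} (ht' : t' ≤ r) (s h : ℕ) :
    Cut A w y s (R + 2) (2 * X) h (R + 4) (2 * X / B + 1) t t' := by
  have hstep : ∀ u, fst (A.conf w y u).h - 1 ≤ fst (A.conf w y (u + 1)).h ∧
      fst (A.conf w y (u + 1)).h ≤ fst (A.conf w y u).h + 1 := fun u =>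
    Pool.Agent.Helper30.RECT.fst_step one_pos A w y (A.conf w y u)
  choose Q hQ1 hQ2 hQ3 using fun j => few (pos := fun u => fst (A.conf w y u).h) hstep hB hwin
    (t := t) ht' j
  have hR : 1 ≤ 2 ^ R := Nat.one_le_two_pow
  have hB1 : (1 : ℤ) ≤ (B : ℤ) := by exact_mod_cast hB
  have hQn : ∀ j : ℤ, Q j < Q (j + 1) ∧ Q (j + 1) ≤ (j + 2) * B := by
    intro j
    have h1 := hQ1 (j + 1)
    have h2 := hQ2 j
    have h3 := hQ2 (j + 1)
    have e : (j + 1 + 1) * (B : ℤ) = (j + 2) * B := by ring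
    rw [e] at h3
    exact ⟨by omega, h3⟩
  obtain ⟨J, hJ⟩ : ∃ J : ℕ, J = 2 ^ R + 1 := ⟨_, rfl⟩
  have hP : ∀ i : ℕ, ((i + 1 : ℕ) : ℤ) - J = ((i : ℤ) - J) + 1 := by
    intro i
    push_cast
    ring
  refine ⟨2 * J + 1, fun i => Q ((i : ℤ) - J), ?_, ?_, ?_, ?_, ?_⟩
  · rw [pow_add]
    omega
  · intro i _
    show Q ((i : ℤ) - J) < Q (((i + 1 : ℕ) : ℤ) - J) ∧
      Q (((i + 1 : ℕ) : ℤ) - J) ≤ Q ((i : ℤ) - J) + 2 ^ (R + 2)
    rw [hP]
    have h1 := hQn ((i : ℤ) - J)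
    have h2 := hQ1 ((i : ℤ) - J)
    have e : ((i : ℤ) - J + 2) * (B : ℤ) = ((i : ℤ) - J) * B + B + B := by ring
    have h3 : ((2 : ℤ) ^ (R + 2)) = 4 * 2 ^ R := by ring
    have h4 : (B : ℤ) ≤ 2 ^ R := by exact_mod_cast hBR
    refine ⟨h1.1, ?_⟩
    rw [h3]
    rw [e] at h1
    generalize ((i : ℤ) - J) * B = z at *
    generalize (2 : ℤ) ^ R = q at *
    omega
  · intro u _ hu
    have h1 := pos_bd A w y u
    have h2 : (u : ℤ) ≤ 2 ^ R := by
      have : u ≤ 2 ^ R := by omega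
      exact_mod_cast this
    have hJ' : (J : ℤ) = 2 ^ R + 1 := by
      rw [hJ]
      push_cast
      ring
    refine ⟨⟨?_, ?_⟩, fun j hj => absurd (by omega : j.val = 0) hj⟩
    · show Q (((0 : ℕ) : ℤ) - J) ≤ fst (A.conf w y u).h
      have h3 := hQ2 (((0 : ℕ) : ℤ) - J)
      have h4 : (((0 : ℕ) : ℤ) - J + 1) * (B : ℤ) ≤ -2 ^ R := by
        have e : (((0 : ℕ) : ℤ) - J + 1) * (B : ℤ) = -(2 ^ R * (B : ℤ)) := by
          rw [hJ']
          push_cast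
          ring
        rw [e]
        have : (2 : ℤ) ^ R * 1 ≤ 2 ^ R * (B : ℤ) := mul_le_mul_of_nonneg_left hB1 (by positivity)
        linarith
      linarith [h1.1]
    · show fst (A.conf w y u).h < Q (((2 * J + 1 : ℕ) : ℤ) - J)
      have h3 := hQ1 (((2 * J + 1 : ℕ) : ℤ) - J)
      have h4 : (2 : ℤ) ^ R ≤ (((2 * J + 1 : ℕ) : ℤ) - J) * (B : ℤ) := by
        have e : (((2 * J + 1 : ℕ) : ℤ) - J) * (B : ℤ) = (2 ^ R + 2) * (B : ℤ) := by
          push_cast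
          rw [hJ']
          ring
        rw [e]
        have : ((2 : ℤ) ^ R + 2) * 1 ≤ (2 ^ R + 2) * (B : ℤ) :=
          mul_le_mul_of_nonneg_left hB1 (by positivity)
        linarith
      linarith [h1.2]
  · intro i _
    exact (hQ3 ((i : ℤ) - J)).trans (Nat.le_succ _)
  · intro i _
    show work A w y (Q ((i : ℤ) - J)) (Q (((i + 1 : ℕ) : ℤ) - J)) t t' ≤ 2 * X ∧
      (time A w y (Q ((i : ℤ) - J)) (Q (((i + 1 : ℕ) : ℤ) - J)) t t' ≤ 2 ^ h * (2 * X + 1) ∨ _)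
    rw [hP]
    have h1 : ∀ S : Set ℕ, (∀ u ∈ S, u < t' ∧ In A w y (Q ((i : ℤ) - J))
        (Q ((i : ℤ) - J + 1)) u) → S.ncard ≤ 2 * X := fun S hS =>
      win2 (pos := fun u => fst (A.conf w y u).h) hwin (hQ1 ((i : ℤ) - J))
        (hQn ((i : ℤ) - J)).2 S fun u hu => ⟨by have := (hS u hu).1; omega, (hS u hu).2⟩
    refine ⟨h1 _ fun u hu => ⟨hu.2.1, hu.2.2.1⟩, Or.inl ?_⟩
    have h2 : time A w y (Q ((i : ℤ) - J)) (Q ((i : ℤ) - J + 1)) t t' ≤ 2 * X :=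
      h1 _ fun u hu => ⟨hu.2.1, hu.2.2⟩
    calc _ ≤ 2 * X := h2
      _ ≤ 1 * (2 * X + 1) := by omega
      _ ≤ 2 ^ h * (2 * X + 1) := Nat.mul_le_mul_right _ Nat.one_le_two_pow

/-! ### The inequalities -/

theorem lam6 (n : ℕ) : ((Nat.log 2 n : ℝ) + 1) ^ 6 ≤ 2200 * ((n : ℝ) + 1) := by
  have h1 : (Nat.log 2 n + 1) ^ 6 ≤ 1100 * (2 * (n + 1)) :=
    (pow6 _).trans (Nat.mul_le_mul_left _ (two_pow_log n))
  have h2 : (((Nat.log 2 n + 1) ^ 6 : ℕ) : ℝ) ≤ ((1100 * (2 * (n + 1)) : ℕ) : ℝ) := by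
    exact_mod_cast h1
  push_cast at h2
  linarith

theorem lam3 (n : ℕ) : ((Nat.log 2 n : ℝ) + 1) ^ 3 ≤ 47 * ((n : ℝ) + 1) ^ ((1 : ℝ) / 2) := by
  have h1 := lam6 n
  rw [← Real.sqrt_eq_rpow]
  have h2 : ((Nat.log 2 n : ℝ) + 1) ^ 3 / 47 ≤ √((n : ℝ) + 1) := by
    apply Real.le_sqrt_of_sq_le
    have e : (((Nat.log 2 n : ℝ) + 1) ^ 3 / 47) ^ 2 = ((Nat.log 2 n : ℝ) + 1) ^ 6 / 2209 := by
      ring
    rw [e, div_le_iff₀ (by norm_num)]
    have h3 : (0 : ℝ) ≤ (n : ℝ) + 1 := by positivity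
    linarith
  linarith

theorem wnd : WND_stmt := by
  intro A E c K₀ C₀
  obtain ⟨K, hK⟩ : ∃ K : ℕ, K = K₀ + 1 := ⟨_, rfl⟩
  obtain ⟨C, hC⟩ : ∃ C : ℝ, C = max C₀ 1 := ⟨_, rfl⟩
  have hC0 : C₀ ≤ C := hC ▸ le_max_left _ _
  have hC1 : 1 ≤ C := hC ▸ le_max_right _ _
  have hK1 : (1 : ℝ) ≤ (K : ℝ) := by
    have : 1 ≤ K := by omega
    exact_mod_cast this
  refine ⟨20000 * (K : ℝ) ^ 6 * C + 330 * (K : ℝ) ^ 3 * 47 + 1470 * (K : ℝ) ^ 3 * (2 * C + 4400),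
    fun w y hloc => ?_⟩
  obtain ⟨r, B, X, hacc, hr, hfit, hB, hBK, hwin, hX1, hX2⟩ := hloc
  obtain ⟨l, hl⟩ : ∃ l : ℕ, l = Nat.log 2 w.length + 1 := ⟨_, rfl⟩
  have hnl : w.length + 2 ≤ 2 ^ (2 * l) := by
    rw [hl]
    exact add_two_le _
  have hKp : (w.length + 2) ^ K₀ ≤ 2 ^ (2 * K * l) := by
    calc (w.length + 2) ^ K₀ ≤ (w.length + 2) ^ K := Nat.pow_le_pow_right (by omega) (by omega)
      _ ≤ (2 ^ (2 * l)) ^ K := Nat.pow_le_pow_left hnl K
      _ = 2 ^ (2 * K * l) := by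
        rw [← pow_mul]
        congr 1
        ring
  have hrR := hr.trans hKp
  have hBR := hBK.trans hKp
  have hC2 : 0 ≤ C := by linarith
  have hy : (0 : ℝ) < (w.length : ℝ) + 1 := by positivity
  generalize hyy : (w.length : ℝ) + 1 = y' at *
  obtain ⟨lam, hlam⟩ : ∃ lam : ℝ, lam = (Nat.log 2 w.length : ℝ) + 1 := ⟨_, rfl⟩
  have hll : (l : ℝ) = lam := by
    rw [hl, hlam]
    push_cast
    ring
  have hlam1 : 1 ≤ lam := by
    rw [hlam]
    have : (0 : ℝ) ≤ (Nat.log 2 w.length : ℝ) := by positivity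
    linarith
  have h6 : lam ^ 6 ≤ 2200 * y' := by
    rw [hlam, ← hyy]
    exact lam6 _
  have h3 : lam ^ 3 ≤ 47 * y' ^ ((1 : ℝ) / 2) := by
    rw [hlam, ← hyy]
    exact lam3 _
  rw [← hlam] at hX1 hX2
  have hXr : (0 : ℝ) ≤ (X : ℝ) := by positivity
  have hBr : (0 : ℝ) < (B : ℝ) := by exact_mod_cast hB
  obtain ⟨κ, hκ⟩ : ∃ κ : ℝ, κ = (K : ℝ) := ⟨_, rfl⟩
  rw [← hκ] at hK1 ⊢
  obtain ⟨p, hp⟩ : ∃ p : ℝ, p = κ * lam := ⟨_, rfl⟩
  have hplam : lam ≤ p := by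
    rw [hp]
    nlinarith
  have hp1 : 1 ≤ p := hlam1.trans hplam
  have hy5 : 0 ≤ y' ^ ((5 : ℝ) / 2) := by positivity
  have hy1 : 0 ≤ y' ^ ((1 : ℝ) / 2) := by positivity
  have hT1 : 0 ≤ 20000 * κ ^ 6 * C := by positivity
  have hT2 : 0 ≤ 330 * κ ^ 3 * 47 := by positivity
  have hT3 : 0 ≤ 1470 * κ ^ 3 * (2 * C + 4400) := by positivity
  have hs : ((K * l : ℕ) : ℝ) = p := by
    rw [Nat.cast_mul, hll, ← hκ, hp]
  have hL : ((2 * K * l + (2 * K * l + 2) : ℕ) : ℝ) + ((Nat.log 2 w.length : ℝ) + 1) =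
      4 * p + 2 + lam := by
    rw [← hlam]
    push_cast
    rw [hll, ← hκ, hp]
    ring
  have hL0 : 0 ≤ 4 * p + 2 + lam := by linarith
  have hL7 : 4 * p + 2 + lam ≤ 10 * p := by linarith
  refine ⟨r, K * l, 2 * K * l + 2, 0, 2 * K * l + 2, 2 * X, 2 * K * l, 2 * K * l + 4,
    2 * X / B + 1, hacc, ?_, ?_, ?_, ?_, ?_, ?_, ?_⟩
  · intro t ht
    have h1 : K₀ * (Nat.log 2 w.length + 1) ≤ K * l := by
      rw [← hl]
      exact Nat.mul_le_mul_right _ (by omega)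
    obtain ⟨h2, h3, h4⟩ := hfit t ht
    exact ⟨h2.trans h1, h3.trans h1, fun z => (h4 z).trans h1⟩
  · intro t ht k
    have h1 := pos_bd A w y t
    have h2 : (t : ℤ) ≤ 2 ^ (2 * K * l) := by
      have : t ≤ 2 ^ (2 * K * l) := ht.trans hrR
      exact_mod_cast this
    have h3 : fst (A.conf w y t).h = (A.conf w y t).h k := by
      rw [Pool.Agent.Helper30.RECT.fst_eq one_pos]
      congr 1
      exact Subsingleton.elim _ _
    rw [h3] at h1
    have h4 : (2 : ℤ) ^ (2 * K * l + 2) = 4 * 2 ^ (2 * K * l) := by ring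
    have h5 : (0 : ℤ) < 2 ^ (2 * K * l) := by positivity
    rw [h4]
    exact ⟨by linarith [h1.1], by linarith [h1.2]⟩
  · intro t t' _ ht' _
    exact cut A w y hB hBR hrR hwin ht' _ _
  · have e1 : (1 : ℝ) + 1 / ((1 : ℕ) : ℝ) = ((2 : ℕ) : ℝ) := by norm_num
    have e2 : (3 : ℝ) / 2 + 1 / ((1 : ℕ) : ℝ) = 5 / 2 := by norm_num
    rw [e1, e2, Real.rpow_natCast, hs, hL, hyy]
    have h1 : (4 * p + 2 + lam) ^ 4 ≤ (10 * p) ^ 4 := pow_le_pow_left₀ hL0 hL7 4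
    calc ((2 * X : ℕ) : ℝ) * p ^ 2 * (4 * p + 2 + lam) ^ 4
        ≤ ((2 * X : ℕ) : ℝ) * p ^ 2 * (10 * p) ^ 4 :=
          mul_le_mul_of_nonneg_left h1 (by positivity)
      _ = 20000 * κ ^ 6 * ((X : ℝ) * lam ^ 6) := by
        rw [hp]
        push_cast
        ring
      _ ≤ 20000 * κ ^ 6 * (C * y' ^ ((5 : ℝ) / 2)) := by
        refine mul_le_mul_of_nonneg_left (hX1.trans ?_) (by positivity)
        exact mul_le_mul_of_nonneg_right hC0 hy5
      _ = 20000 * κ ^ 6 * C * y' ^ ((5 : ℝ) / 2) := by ring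
      _ ≤ _ := mul_le_mul_of_nonneg_right (by linarith) hy5
  · have e : ((2 * K * l : ℕ) : ℝ) = 2 * p := by
      push_cast
      rw [hll, ← hκ, hp]
      ring
    rw [hs, hL, e, hyy]
    calc (p + (4 * p + 2 + lam)) * (2 * p + 1) * (4 * p + 2 + lam)
        ≤ (11 * p) * (3 * p) * (10 * p) := by
          refine mul_le_mul (mul_le_mul (by linarith) (by linarith) (by linarith) (by linarith))
            hL7 hL0 (by positivity)
      _ = 330 * κ ^ 3 * lam ^ 3 := by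
        rw [hp]
        ring
      _ ≤ 330 * κ ^ 3 * (47 * y' ^ ((1 : ℝ) / 2)) :=
        mul_le_mul_of_nonneg_left h3 (by positivity)
      _ = 330 * κ ^ 3 * 47 * y' ^ ((1 : ℝ) / 2) := by ring
      _ ≤ _ := mul_le_mul_of_nonneg_right (by linarith) hy1
  · rw [Nat.cast_zero, zero_mul, hyy]
    positivity
  · have e : ((2 * K * l + 4 : ℕ) : ℝ) = 2 * p + 4 := by
      push_cast
      rw [hll, ← hκ, hp]
      ring
    have e' : ((2 * K * l + 2 : ℕ) : ℝ) = 2 * p + 2 := by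
      push_cast
      rw [hll, ← hκ, hp]
      ring
    rw [hs, hL, e, e', hyy]
    obtain ⟨M, hM⟩ : ∃ M : ℝ, M = 2 * (X : ℝ) / B + 2 := ⟨_, rfl⟩
    have hN : ((2 * X / B + 1 : ℕ) : ℝ) + 1 ≤ M := by
      have h1 : ((2 * X / B : ℕ) : ℝ) ≤ ((2 * X : ℕ) : ℝ) / (B : ℝ) := Nat.cast_div_le
      rw [hM]
      push_cast at h1 ⊢
      linarith
    have hN0 : 0 ≤ ((2 * X / B + 1 : ℕ) : ℝ) + 1 := by positivity
    have hM2 : 2 ≤ M := by
      rw [hM]
      have : 0 ≤ 2 * (X : ℝ) / B := by positivity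
      linarith
    have hpM : 2 * p ≤ p * M := by nlinarith
    have h36 : lam ^ 3 ≤ lam ^ 6 := pow_le_pow_right₀ hlam1 (by norm_num)
    have hlM : lam ^ 3 * M ≤ (2 * C + 4400) * y' := by
      have e3 : lam ^ 3 * M = 2 * ((X : ℝ) * lam ^ 3 / B) + 2 * lam ^ 3 := by
        rw [hM]
        field_simp
      have h4 : (X : ℝ) * lam ^ 3 / B ≤ C * y' := by
        rw [div_le_iff₀ hBr]
        refine hX2.trans ?_
        exact mul_le_mul_of_nonneg_right (mul_le_mul_of_nonneg_right hC0 hy.le) hBr.le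
      rw [e3]
      linarith
    calc (2 * p + 4 + 1) * (2 * p + 2 + (2 * p + 4) +
          (((2 * X / B + 1 : ℕ) : ℝ) + 1) * (p + (4 * p + 2 + lam))) * (4 * p + 2 + lam)
        ≤ (7 * p) * (10 * (p * M) + M * (11 * p)) * (10 * p) := by
          refine mul_le_mul (mul_le_mul (by linarith) (add_le_add (by linarith)
            (mul_le_mul hN (by linarith) (by linarith) (by linarith))) (by positivity)
            (by linarith)) hL7 hL0 (by positivity)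
      _ = 1470 * κ ^ 3 * (lam ^ 3 * M) := by
        rw [hp]
        ring
      _ ≤ 1470 * κ ^ 3 * ((2 * C + 4400) * y') := mul_le_mul_of_nonneg_left hlM (by positivity)
      _ = 1470 * κ ^ 3 * (2 * C + 4400) * y' := by ring
      _ ≤ _ := mul_le_mul_of_nonneg_right (by linarith) hy.le

end Pool.Agent.Helper50.RECT
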