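import Pool.Agent.Helper92.RECT.Goals4
import Pool.Agent.Helper56.OHS.CUB
import Pool.Agent.Helper94.OHS.CEL
import Pool.Agent.Helper28.Sus.RCC
import Pool.Agent.Helper30.RECT.REAL

/-!
# RECT, packet PTC: completeness of a path of slabs
-/

namespace Pool.Agent.Helper50.RECT

open Pool.Agent.Helper65.LinSpace Pool.Agent.Helper78.Mpc Pool.Agent.Helper28.Ram Finset
open Pool.Agent.Helper92.RECT
open Pool.Agent.Helper65.OH (Prm OneHead Conf Par InBox co GoodQ Fns)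
open Pool.Agent.Helper28.OHS (cellN cs cn cd Rep Box)
open Pool.Agent.Helper28.Few (mcf)
open Pool.Agent.Helper28.Sus (rc rcc)
open Pool.Agent.Helper30.RECT (cnt_fin cnt_lt)

variable {D : ℕ}

theorem sum_ne {n i : ℕ} {f : ℕ → ℕ} (hi : i < n) (h : f i ≠ 0) : ∑ j ∈ range n, f j ≠ 0 :=
  fun h0 => h (sum_eq_zero_iff.1 h0 i (mem_range.2 hi))

section cnt

variable (A : OneHead D) (w y : List Bool)

theorem time_self (P : ℤ) (t t' : ℕ) : time A w y P P t t' = 0 := by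
  unfold time
  have h : {u : ℕ | t ≤ u ∧ u < t' ∧ In A w y P P u} = ∅ := by
    ext u
    simp only [Set.mem_ofPred_eq, Set.mem_empty_iff_false, iff_false]
    rintro ⟨-, -, h1, h2⟩
    omega
  rw [h, Set.ncard_empty]

theorem time_add {P Q R : ℤ} (h1 : P ≤ Q) (h2 : Q ≤ R) (t t' : ℕ) :
    time A w y P R t t' = time A w y P Q t t' + time A w y Q R t t' := by
  unfold time
  rw [← Set.ncard_union_eq ?_ (cnt_fin _ t t') (cnt_fin _ t t')]
  · congr 1
    ext u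
    simp only [Set.mem_ofPred_eq, Set.mem_union]
    unfold In
    constructor
    · rintro ⟨h3, h4, h5, h6⟩
      rcases lt_or_ge (fst (A.conf w y u).h) Q with h | h
      · exact Or.inl ⟨h3, h4, h5, h⟩
      · exact Or.inr ⟨h3, h4, h, h6⟩
    · rintro (⟨h3, h4, h5, h6⟩ | ⟨h3, h4, h5, h6⟩)
      · exact ⟨h3, h4, h5, by omega⟩
      · exact ⟨h3, h4, by omega, h6⟩
  · rw [Set.disjoint_left]
    rintro u ⟨-, -, -, h3⟩ ⟨-, -, h4, -⟩
    omega

theorem time_all {P P' : ℤ} {t t' : ℕ} (h : ∀ u, t ≤ u → u < t' → In A w y P P' u) :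
    time A w y P P' t t' = t' - t := by
  unfold time
  have e : {u : ℕ | t ≤ u ∧ u < t' ∧ In A w y P P' u} = ((Finset.Ico t t' : Finset ℕ) : Set ℕ) := by
    ext u
    simp only [Set.mem_ofPred_eq, Finset.coe_Ico, Set.mem_Ico]
    exact ⟨fun hu => ⟨hu.1, hu.2.1⟩, fun hu => ⟨hu.1, hu.2, h u hu.1 hu.2⟩⟩
  rw [e, Set.ncard_coe_finset, Nat.card_Ico]

theorem nc_none {P : ℤ} {t t' : ℕ} (h : ∀ u, t ≤ u → u < t' → ¬Crs A w y P u) :
    nc A w y P t t' = 0 := by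
  unfold nc
  have e : {u : ℕ | t ≤ u ∧ u < t' ∧ Crs A w y P u} = ∅ := by
    ext u
    simp only [Set.mem_ofPred_eq, Set.mem_empty_iff_false, iff_false]
    rintro ⟨h1, h2, h3⟩
    exact h u h1 h2 h3
  rw [e, Set.ncard_empty]

theorem recs_ge {P : ℤ} {t t' m : ℕ} (h : nc A w y P t t' ≤ m) : recs A w y P t t' m = none := by
  unfold recs
  rw [dif_neg]
  rintro ⟨u, h2, h3, h4, h5⟩
  have h6 : nc A w y P t u < nc A w y P t t' := cnt_lt (Crs A w y P) h2 h3 h4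
  omega

theorem recs_sp {P : ℤ} {t t' m : ℕ} {ρ : List Bool × (Fin D → ℤ)}
    (h : recs A w y P t t' m = some ρ) : ∃ u, t ≤ u ∧ u < t' ∧
      ρ = ((A.conf w y (u + 1)).q, set0 (A.conf w y (u + 1)).h 0) := by
  unfold recs at h
  by_cases he : ∃ u, t ≤ u ∧ u < t' ∧ Crs A w y P u ∧ nc A w y P t u = m
  · rw [dif_pos he] at h
    exact ⟨he.choose, he.choose_spec.1, he.choose_spec.2.1, (Option.some.inj h).symm⟩
  · rw [dif_neg he] at h
    exact absurd h (by simp)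

end cnt

/-! ### Vertices -/

theorem v_mod {a p : ℕ} (q : ℕ) (hp : p < a) : (p + a * q) % a = p := by
  rw [Nat.add_mul_mod_self_left, Nat.mod_eq_of_lt hp]

theorem v_div {a p : ℕ} (q : ℕ) (hp : p < a) : (p + a * q) / a = q := by
  rw [Nat.add_mul_div_left _ _ (by omega), Nat.div_eq_of_lt hp, zero_add]

theorem v_lt {a b p q n : ℕ} (hp : p < a) (hq : q < b * n) : p + a * q < a * (b * n) := by
  calc p + a * q < a + a * q := by omega
    _ = a * (q + 1) := by ring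
    _ ≤ a * (b * n) := Nat.mul_le_mul le_rfl hq

theorem v_lt' {b t L n : ℕ} (ht : t < b) (hL : L < n) : t + b * L < b * n := by
  calc t + b * L < b + b * L := by omega
    _ = b * (L + 1) := by ring
    _ ≤ b * n := Nat.mul_le_mul le_rfl hL

/-! ### The ends of the slabs -/

theorem P_mono {K b : ℕ} {P : ℕ → ℤ} (hP : ∀ i < K, P i < P (i + 1) ∧ P (i + 1) ≤ P i + 2 ^ b) :
    ∀ j ≤ K, ∀ i ≤ j, P i ≤ P j := by
  intro j
  induction j with
  | zero =>
    intro _ i hi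
    rw [Nat.le_zero.1 hi]
  | succ j ih =>
    intro hj i hi
    rcases Nat.lt_or_ge i (j + 1) with h | h
    · exact (ih (by omega) i (by omega)).trans (hP j (by omega)).1.le
    · rw [Nat.le_antisymm hi h]

theorem P_le {K b : ℕ} {P : ℕ → ℤ} (hP : ∀ i < K, P i < P (i + 1) ∧ P (i + 1) ≤ P i + 2 ^ b) :
    ∀ j ≤ K, P j ≤ P 0 + j * 2 ^ b := by
  intro j
  induction j with
  | zero => intro _; simp
  | succ j ih =>
    intro hj
    have h1 := ih (by omega)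
    have h2 := (hP j (by omega)).2
    push_cast
    linarith

theorem fst_eq (hD : 0 < D) (p : Fin D → ℤ) : fst p = p ⟨0, hD⟩ := by
  unfold fst
  rw [dif_pos hD]

theorem box_in {g κ : ℕ} {p : Fin D → ℤ} (hκ : κ = g + 1) (h : Box g p) : InBox κ p := by
  intro k
  have h1 := h k
  subst hκ
  rw [Nat.add_sub_cancel]
  have h2 : (2 : ℤ) ^ (g + 1) = 2 ^ g + 2 ^ g := by ring
  exact ⟨by linarith, by linarith⟩

/-! ### Lists and slabs -/

theorem lists (hLis : LIS_stmt) {A : OneHead D} {w y : List Bool} {s : Sp} {b N t₀ t₁ r : ℕ}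
    (hmD : s.m.D = D) (hκ : s.m.κ = b + 2) (h1r : t₁ ≤ r) (hfit : A.Fits w y r s.m.S)
    (hoth : ∀ u, t₀ ≤ u → u ≤ t₁ → ∀ j : Fin D, j.val ≠ 0 →
      -2 ^ b ≤ (A.conf w y u).h j ∧ (A.conf w y u).h j < 2 ^ b)
    {P : ℤ} (hN : nc A w y P t₀ t₁ ≤ N) :
    ∃ Λ < 2 ^ (s.m.sg * N), LMs s.m Λ (recs A w y P t₀ t₁) := by
  refine hLis.enc s.m hmD (by omega) N _ (fun i hi => recs_ge A w y (hN.trans hi)) ?_
  intro i ρ hρ
  obtain ⟨u, h2, h3, rfl⟩ := recs_sp A w y hρ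
  refine ⟨(hfit (u + 1) (by omega)).1, fun k hk => ?_, fun k hk => ?_⟩
  · show set0 (A.conf w y (u + 1)).h 0 k = 0
    unfold set0
    rw [if_pos hk]
  · have h4 := hoth (u + 1) (by omega) (by omega) k hk
    have h5 : (2 : ℤ) ^ b ≤ 2 ^ (s.m.κ - 1) := pow_le_pow_right₀ (by norm_num) (by omega)
    show -2 ^ (s.m.κ - 1) ≤ set0 (A.conf w y (u + 1)).h 0 k ∧
      set0 (A.conf w y (u + 1)).h 0 k < 2 ^ (s.m.κ - 1)
    unfold set0
    rw [if_neg hk]
    exact ⟨by linarith [h4.1], by linarith [h4.2]⟩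

theorem slab (hSlc : SLC_stmt) (hLis : LIS_stmt) {A : OneHead D} {w y : List Bool} {s : Sp}
    {N tw k d a V Tc b g h x r T : ℕ} {F : Sp → ℕ → ℕ}
    (hc : Cpl A w y s N tw k d a V Tc b g h x r T F) {c f al t₀ t₁ : ℕ} (h01 : t₀ ≤ t₁)
    (h1r : t₁ ≤ r) (hRc : Rep s.G s.e c (A.conf w y t₀)) (hf0 : f = 0 → t₁ = r)
    (hf1 : f ≠ 0 → Rep s.G s.e f (A.conf w y t₁)) (hal : al < 2 ^ (s.G.κ * s.m.D))
    (hoth : ∀ u, t₀ ≤ u → u ≤ t₁ → ∀ j : Fin D, j.val ≠ 0 →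
      -2 ^ b ≤ (A.conf w y u).h j ∧ (A.conf w y u).h j < 2 ^ b)
    {P P' : ℤ} (hPP : P < P') (hPb : P' ≤ P + 2 ^ b) {Ph W n L R : ℕ}
    (hPh : (Ph : ℤ) = P + 2 ^ s.π) (hW : (W : ℤ) = P' - P)
    (hn : n = time A w y P P' t₀ t₁) (hnt : n ≤ 2 ^ h * (x + 1))
    (hL : LMs s.m L (recs A w y P t₀ t₁)) (hLl : L < 2 ^ (s.m.sg * N))
    (hR : LMs s.m R (recs A w y P' t₀ t₁)) (hRl : R < 2 ^ (s.m.sg * N))
    (hwk : work A w y P P' t₀ t₁ ≤ x) (hnP : nc A w y P t₀ t₁ ≤ N)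
    (hnP' : nc A w y P' t₀ t₁ ≤ N) : ∃ o < d, F (s.put Ph W n L R c f al) o = 1 := by
  have hκ := hc.κ
  have hb := hc.bas
  obtain ⟨eA, eN, eW, c₀, hpar⟩ := hb.par
  obtain ⟨eA', eN', eW', c₀', hparG⟩ := hb.parG
  have hWb : W ≤ 2 ^ (s.m.κ - 2) := by
    have h1 : (W : ℤ) ≤ 2 ^ b := by
      rw [hW]
      linarith
    rw [hκ, Nat.add_sub_cancel]
    exact_mod_cast h1
  have hrl : Rl A w y (s.put Ph W n L R c f al) P P' t₀ t₁ := {
    rdy := {
      pos := hb.pos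
      par := hb.par
      parG := hb.parG
      fns := hb.fns
      d1 := hb.d1
      o0 := hb.o0
      S := hb.S
      W := hW
      Wpos := by
        show 0 < W
        have : (0 : ℤ) < (W : ℤ) := by
          rw [hW]
          linarith
        exact_mod_cast this
      Wle := hWb
      κ := hb.κ
      Ph := hPh
      nte := lt_of_le_of_lt hnt hc.te
      Lν := fun i hi => by
        have h1 : i < N := hLis.lt s.m N L hLl i hi
        have h2 : N < 2 ^ s.ν := hb.N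
        show i + 1 < 2 ^ s.ν
        omega
      Rν := fun i hi => by
        have h1 : i < N := hLis.lt s.m N R hRl i hi
        have h2 : N < 2 ^ s.ν := hb.N
        show i + 1 < 2 ^ s.ν
        omega }
    le := h01
    n := hn
    L := hL
    R := hR
    c := hRc
    na := fun u _ hu => hc.na u (by omega)
    fit := fun t ht => hc.fit t (by omega)
    box := fun u _ hu => box_in hc.κG (hc.box u (by omega))
    oth := fun u hu hu' j hj => by
      have h1 := hoth u hu hu' j hj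
      show -2 ^ (s.m.κ - 2) ≤ (A.conf w y u).h j ∧ (A.conf w y u).h j < 2 ^ (s.m.κ - 2)
      rw [hκ, Nat.add_sub_cancel]
      exact h1
    f0 := fun hf => by
      rw [hf0 hf]
      exact hc.acc
    f1 := hf1
    al := fun _ => by
      refine Pool.Agent.Helper56.OHS.cub.surj s.G al hparG.h_D hparG.pos_κ ?_
      rw [hparG.h_D, ← hpar.h_D]
      exact hal }
  obtain ⟨o, ho, h1⟩ := hSlc A w y _ P P' t₀ t₁ hrl d a V Tc hc.fs.hd hc.fs.hT hc.fs.ha hc.fs.hV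
    (by
      show 0 < s.m.D
      rw [hpar.h_D]
      exact hb.pos) h x (2 * N) T hwk (hn ▸ hnt) (by omega) hc.Tc hc.T
  exact ⟨o, ho, (hc.fs.eq Ph W n L R c f al hWb o ho).trans h1⟩

theorem lt_nz {u v : ℕ} (h : u < v) : lt01 u v ≠ 0 := by
  unfold lt01
  rw [if_pos h]
  exact one_ne_zero

theorem le_nz {u v : ℕ} (h : u ≤ v) : le01 u v ≠ 0 := by
  unfold le01
  rw [if_pos h]
  exact one_ne_zero

theorem nz_ifz {u v z : ℕ} (h1 : u = 0 → v ≠ 0) (h2 : u ≠ 0 → z ≠ 0) : ifz u v z ≠ 0 := by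
  unfold ifz
  split_ifs with h
  · exact h1 h
  · exact h2 h

/-- The content of a cell on which the head is never. -/
theorem ct_const {A : OneHead D} {w y : List Bool} {p : Fin D → ℤ} {t₀ : ℕ} : ∀ t₁ : ℕ,
    t₀ ≤ t₁ → (∀ u, t₀ ≤ u → u < t₁ → (A.conf w y u).h ≠ p) →
    (A.conf w y t₁).M p = (A.conf w y t₀).M p := by
  intro t₁ h01
  induction t₁, h01 using Nat.le_induction with
  | base => intro _; rfl
  | succ t ht ih =>
    intro h
    rw [← ih fun u hu hu' => h u hu (by omega)]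
    show Function.update (A.conf w y t).M (A.conf w y t).h _ p = _
    rw [Function.update_of_ne (h t ht (by omega)).symm]

theorem ptc (hReg : REG_stmt) (hSlc : SLC_stmt) (hLis : LIS_stmt) (hLops : LOPS_stmt) :
    PTC_stmt := by
  intro D A w y s N tw k d a V Tc b g h x r T F hc c f al t₀ t₁ h01 h1r hcut hRc hf0 hf1 hal
  obtain ⟨K, P, hK, hP, hIn, hcr, hwt⟩ := hcut
  have hb := hc.bas
  have hD : 0 < D := hb.pos
  obtain ⟨eA, eN, eW, c₀, hpar⟩ := hb.par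
  obtain ⟨eA', eN', eW', c₀', hparG⟩ := hb.parG
  have hκ := hc.κ
  have hbas' : Bas A w y (s.cfa c f al) N :=
    ⟨hb.pos, hb.par, hb.parG, hb.fns, hb.d1, hb.o0, hb.S, hb.κ, hb.N⟩
  have hoth := fun u hu hu' => (hIn u hu hu').2
  -- the ends of the slabs
  have hm := P_mono hP
  have hi0 := (hIn t₀ le_rfl h01).1
  have hK0 : 0 < K := by
    rcases Nat.eq_zero_or_pos K with h0 | h0
    · exfalso
      rw [h0] at hi0
      unfold In at hi0
      omega
    · exact h0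
  have hPK := P_le hP K le_rfl
  have hfb : -2 ^ g ≤ fst (A.conf w y t₀).h ∧ fst (A.conf w y t₀).h < 2 ^ g := by
    rw [fst_eq hD]
    exact hc.box t₀ (by omega) _
  have hKb : (K : ℤ) * 2 ^ b ≤ 2 ^ (k + b) := by
    rw [pow_add]
    exact mul_le_mul_of_nonneg_right (by exact_mod_cast hK) (by positivity)
  have hπ : (2 : ℤ) ^ g + 2 ^ (k + b) ≤ 2 ^ s.π := by
    have e1 : (2 : ℤ) ^ g ≤ 2 ^ (g + k + b) := pow_le_pow_right₀ (by norm_num) (by omega)
    have e2 : (2 : ℤ) ^ (k + b) ≤ 2 ^ (g + k + b) := pow_le_pow_right₀ (by norm_num) (by omega)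
    have e3 : (2 : ℤ) ^ (g + k + b + 1) ≤ 2 ^ s.π :=
      pow_le_pow_right₀ (by norm_num) (by have := hc.π; omega)
    have e4 : (2 : ℤ) ^ (g + k + b + 1) = 2 ^ (g + k + b) + 2 ^ (g + k + b) := by ring
    linarith
  have hPr : ∀ i ≤ K, -2 ^ s.π < P i ∧ P i < 2 ^ s.π := by
    intro i hi
    have e1 := hm i hi 0 (Nat.zero_le i)
    have e2 := hm K le_rfl i hi
    constructor <;> linarith [hi0.1, hi0.2, hfb.1, hfb.2]
  -- the numbers of steps
  have htm : ∀ i < K, time A w y (P i) (P (i + 1)) t₀ t₁ ≤ 2 ^ h * (x + 1) := by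
    intro i hi
    rcases (hwt i hi).2 with h1 | h1
    · exact h1
    · exact hLops hD A w y (P i) (P (i + 1)) r s.m.S b h x t₀ t₁ hc.fit hc.acc hc.na h01 h1r
        (hP i hi).2 hoth (hwt i hi).1 h1
  have hτ0 : time A w y (P 0) (P 0) t₀ t₁ = 0 := time_self A w y _ _ _
  have hτs : ∀ i < K, time A w y (P 0) (P (i + 1)) t₀ t₁ =
      time A w y (P 0) (P i) t₀ t₁ + time A w y (P i) (P (i + 1)) t₀ t₁ := fun i hi =>
    time_add A w y (hm i (by omega) 0 (Nat.zero_le i)) (hP i hi).1.le t₀ t₁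
  have hτK : time A w y (P 0) (P K) t₀ t₁ = t₁ - t₀ :=
    time_all A w y fun u hu hu' => (hIn u hu hu'.le).1
  have hτle : ∀ i ≤ K, time A w y (P 0) (P i) t₀ t₁ ≤ i * (2 ^ h * (x + 1)) := by
    intro i
    induction i with
    | zero => intro _; rw [hτ0]; exact Nat.zero_le _
    | succ i ih =>
      intro hi
      rw [hτs i (by omega), Nat.add_mul, one_mul]
      exact Nat.add_le_add (ih (by omega)) (htm i (by omega))
  have hτm : ∀ i ≤ K, time A w y (P 0) (P i) t₀ t₁ ≤ t₁ - t₀ := by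
    intro i hi
    rw [← hτK, time_add A w y (hm i hi 0 (Nat.zero_le i)) (hm K le_rfl i hi)]
    exact Nat.le_add_right _ _
  have htw : t₁ - t₀ < 2 ^ tw := by
    calc t₁ - t₀ = time A w y (P 0) (P K) t₀ t₁ := hτK.symm
      _ ≤ K * (2 ^ h * (x + 1)) := hτle K le_rfl
      _ ≤ 2 ^ k * (2 ^ h * (x + 1)) := Nat.mul_le_mul_right _ hK
      _ < 2 ^ k * 2 ^ s.te := Nat.mul_lt_mul_of_pos_left hc.te (by positivity)
      _ = 2 ^ (s.te + k) := by rw [pow_add, mul_comm]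
      _ ≤ 2 ^ tw := Nat.pow_le_pow_right (by norm_num) hc.tw
  -- the records
  have hnc0 : nc A w y (P 0) t₀ t₁ = 0 := nc_none A w y fun u hu hu' hC => hC
    ⟨fun h1 => absurd (hIn u hu hu'.le).1.1 (by omega),
      fun h1 => absurd (hIn (u + 1) (by omega) (by omega)).1.1 (by omega)⟩
  have hncK : nc A w y (P K) t₀ t₁ = 0 := nc_none A w y fun u hu hu' hC => hC
    ⟨fun _ => (hIn (u + 1) (by omega) (by omega)).1.2, fun _ => (hIn u hu hu'.le).1.2⟩
  have hnc : ∀ i ≤ K, nc A w y (P i) t₀ t₁ ≤ N := by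
    intro i hi
    rcases Nat.lt_or_ge i K with h1 | h1
    · exact hcr i h1
    · rw [Nat.le_antisymm hi h1, hncK]
      exact Nat.zero_le _
  have hΛ : ∀ i, ∃ L, i ≤ K → (L < 2 ^ (s.m.sg * N) ∧ LMs s.m L (recs A w y (P i) t₀ t₁) ∧
      (i = 0 ∨ i = K → L = 0)) := by
    intro i
    by_cases hi : i ≤ K
    · by_cases h0 : i = 0 ∨ i = K
      · refine ⟨0, fun _ => ⟨by positivity, fun m => Or.inl ⟨by simp [dig], ?_⟩, fun _ => rfl⟩⟩
        refine recs_ge A w y ?_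
        rcases h0 with h0 | h0 <;> rw [h0]
        · rw [hnc0]
          exact Nat.zero_le _
        · rw [hncK]
          exact Nat.zero_le _
      · obtain ⟨L, h1, h2⟩ := lists hLis hpar.h_D hκ h1r hc.fit hoth (hnc i hi)
        exact ⟨L, fun _ => ⟨h1, h2, fun h3 => absurd h3 h0⟩⟩
    · exact ⟨0, fun h1 => absurd h1 hi⟩
  choose Λ hΛ using hΛ
  have hp : ∀ i, ∃ p : ℕ, i ≤ K → ((p : ℤ) = P i + 2 ^ s.π ∧ p < 2 ^ (s.π + 1)) := by
    intro i
    by_cases hi : i ≤ K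
    · obtain ⟨h1, h2⟩ := hPr i hi
      refine ⟨(P i + 2 ^ s.π).toNat, fun _ => ?_⟩
      have h3 : (((P i + 2 ^ s.π).toNat : ℕ) : ℤ) = P i + 2 ^ s.π :=
        Int.toNat_of_nonneg (by linarith)
      refine ⟨h3, ?_⟩
      have h4 : (((P i + 2 ^ s.π).toNat : ℕ) : ℤ) < ((2 ^ (s.π + 1) : ℕ) : ℤ) := by
        rw [h3]
        push_cast
        have h5 : (2 : ℤ) ^ (s.π + 1) = 2 ^ s.π + 2 ^ s.π := by ring
        linarith
      exact_mod_cast h4
    · exact ⟨0, fun h1 => absurd h1 hi⟩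
  choose p hp using hp
  obtain ⟨W, hW⟩ : ∃ W : ℕ → ℕ, W = fun i => p i + 2 ^ (s.π + 1) *
    (time A w y (P 0) (P i) t₀ t₁ + 2 ^ tw * Λ i) := ⟨_, rfl⟩
  have hWP : ∀ i ≤ K, (s.cfa c f al).vP (W i) = p i := by
    intro i hi
    rw [hW]
    exact v_mod _ (hp i hi).2
  have hWd : ∀ i ≤ K, W i / 2 ^ (s.π + 1) = time A w y (P 0) (P i) t₀ t₁ + 2 ^ tw * Λ i := by
    intro i hi
    rw [hW]
    exact v_div _ (hp i hi).2
  have hWT : ∀ i ≤ K, (s.cfa c f al).vT tw (W i) = time A w y (P 0) (P i) t₀ t₁ := by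
    intro i hi
    show W i / 2 ^ (s.π + 1) % 2 ^ tw = _
    rw [hWd i hi]
    exact v_mod _ ((hτm i hi).trans_lt htw)
  have hWL : ∀ i ≤ K, (s.cfa c f al).vL tw (W i) = Λ i := by
    intro i hi
    show W i / 2 ^ (s.π + 1) / 2 ^ tw = _
    rw [hWd i hi]
    exact v_div _ ((hτm i hi).trans_lt htw)
  have hWZ : ∀ i ≤ K, W i < (s.cfa c f al).ZZ tw N := by
    intro i hi
    rw [hW]
    exact v_lt (hp i hi).2 (v_lt' ((hτm i hi).trans_lt htw) (hΛ i hi).1)
  have hedge : ∀ i < K, (s.cfa c f al).edgL tw d F (W i) (W (i + 1)) ≠ 0 := by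
    intro i hi
    refine nz_ifz (fun _ => ?_) (fun _ => one_ne_zero)
    have hp1 := hp i hi.le
    have hp2 := hp (i + 1) hi
    have hP1 := hP i hi
    have hlt : p i < p (i + 1) := by omega
    have hWi : ((p (i + 1) - p i : ℕ) : ℤ) = P (i + 1) - P i := by
      rw [Nat.cast_sub hlt.le, hp1.1, hp2.1]
      ring
    have hts : time A w y (P 0) (P (i + 1)) t₀ t₁ - time A w y (P 0) (P i) t₀ t₁ =
        time A w y (P i) (P (i + 1)) t₀ t₁ := by
      rw [hτs i hi, Nat.add_sub_cancel_left]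
    unfold Sp.edge
    rw [hWP i hi.le, hWP (i + 1) hi, hWT i hi.le, hWT (i + 1) hi]
    refine Nat.mul_ne_zero (lt_nz hlt) (Nat.mul_ne_zero (le_nz ?_) (Nat.mul_ne_zero (le_nz ?_)
      (Nat.mul_ne_zero (lt_nz ?_) (lt_nz ?_))))
    · show p (i + 1) - p i ≤ 2 ^ (s.m.κ - 2)
      have h1 : ((p (i + 1) - p i : ℕ) : ℤ) ≤ ((2 ^ b : ℕ) : ℤ) := by
        rw [hWi]
        push_cast
        linarith [hP1.2]
      rw [hκ, Nat.add_sub_cancel]
      exact_mod_cast h1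
    · rw [hτs i hi]
      exact Nat.le_add_right _ _
    · rw [hts]
      exact (htm i hi).trans_lt hc.te
    · obtain ⟨o, ho, h1⟩ := slab hSlc hLis hc (c := c) (f := f) (al := al) h01 h1r hRc hf0 hf1 hal
        hoth hP1.1 hP1.2 hp1.1 hWi hts (by rw [hts]; exact htm i hi) (hΛ i hi.le).2.1
        (hΛ i hi.le).1 (hΛ (i + 1) hi).2.1 (hΛ (i + 1) hi).1 (hwt i hi).1 (hnc i hi.le)
        (hnc (i + 1) hi)
      refine Nat.pos_of_ne_zero (sum_ne ho ?_)
      have h2 : (s.cfa c f al).sE tw (W i) (W (i + 1)) = s.put (p i) (p (i + 1) - p i)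
          (time A w y (P 0) (P (i + 1)) t₀ t₁ - time A w y (P 0) (P i) t₀ t₁) (Λ i) (Λ (i + 1))
          c f al := by
        unfold Sp.sE
        rw [hWP i hi.le, hWP (i + 1) hi, hWT i hi.le, hWT (i + 1) hi, hWL i hi.le,
          hWL (i + 1) hi]
        rfl
      rw [h2, h1]
      exact one_ne_zero
  have hrc := rcc ((s.cfa c f al).edgL tw d F) ((s.cfa c f al).ZZ tw N) k
    (fun v => nz_ifz (fun h0 => absurd h0 (by simp [eq01])) fun _ => one_ne_zero) K W hK hWZ hedge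
  have hW0 : W 0 = p 0 := by
    rw [hW]
    show p 0 + 2 ^ (s.π + 1) * (time A w y (P 0) (P 0) t₀ t₁ + 2 ^ tw * Λ 0) = p 0
    rw [hτ0, (hΛ 0 (Nat.zero_le K)).2.2 (Or.inl rfl)]
    rfl
  have hWK : W K = p K + 2 ^ (s.π + 1) * ((t₁ - t₀) % 2 ^ tw) := by
    rw [hW]
    show p K + 2 ^ (s.π + 1) * (time A w y (P 0) (P K) t₀ t₁ + 2 ^ tw * Λ K) = _
    rw [hτK, (hΛ K le_rfl).2.2 (Or.inr rfl), Nat.mul_zero, Nat.mod_eq_of_lt htw]
    rfl
  rw [hW0, hWK] at hrc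
  have hq0 : ((p 0 : ℕ) : ℤ) - 2 ^ s.π = P 0 := by
    rw [(hp 0 (Nat.zero_le K)).1]
    ring
  have hqK : ((p K : ℕ) : ℤ) - 2 ^ s.π = P K := by
    rw [(hp K le_rfl).1]
    ring
  refine ⟨sum_ne (hp 0 (Nat.zero_le K)).2 (sum_ne (hp K le_rfl).2
    (Nat.mul_ne_zero ?_ (Nat.mul_ne_zero (nz_ifz (fun _ => one_ne_zero) fun hf => ?_) hrc))), htw⟩
  · refine (hReg.hp A w y (s.cfa c f al) N hbas' (A.conf w y t₀) hRc (p 0) (p K)).2 ?_
    show ((p 0 : ℕ) : ℤ) - 2 ^ s.π ≤ _ ∧ _ < ((p K : ℕ) : ℤ) - 2 ^ s.π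
    rw [hq0, hqK]
    exact hi0
  · refine nz_ifz (fun h0 => ?_) (fun _ => one_ne_zero)
    obtain ⟨z, hz, hza⟩ := Pool.Agent.Helper56.OHS.cub.surj s.G al hparG.h_D hparG.pos_κ (by
      rw [hparG.h_D, ← hpar.h_D]
      exact hal)
    have hreg := hReg.al A w y (s.cfa c f al) N hbas' z hz (p 0) (p K)
    have hnR : ¬Rgn s.m.κ (P 0) (P K) z := by
      intro hR
      refine (hreg.2 ?_) ?_
      · show Rgn s.m.κ (((p 0 : ℕ) : ℤ) - 2 ^ s.π) (((p K : ℕ) : ℤ) - 2 ^ s.π) z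
        rw [hq0, hqK]
        exact hR
      · show (s.cfa c f al).btw (p 0) (p K) (dig (2 ^ s.G.κ) (cd s.G z) 0) *
          (s.cfa c f al).oth (cd s.G z) = 0
        rw [hza]
        exact h0
    have hct : (A.conf w y t₁).M z = (A.conf w y t₀).M z := by
      refine ct_const t₁ h01 fun u hu hu' he => hnR ?_
      have h1 := hIn u hu hu'.le
      refine ⟨by rw [← he]; exact h1.1.1, by rw [← he]; exact h1.1.2, fun j hj => ?_⟩
      have h2 := h1.2 j hj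
      have h5 : (2 : ℤ) ^ b ≤ 2 ^ (s.m.κ - 1) := pow_le_pow_right₀ (by norm_num) (by omega)
      rw [← he]
      exact ⟨by linarith [h2.1], by linarith [h2.2]⟩
    have hnm : (s.cfa c f al).nm al = cellN s.G.κ (co s.G.κ z) s.G.D := by
      show cellN s.G.κ (dig (2 ^ s.G.κ) al) s.m.D = _
      rw [hpar.h_D, hparG.h_D, ← hza]
      exact Pool.Agent.Helper94.OHS.cel.congr s.G.κ D _ _
        (Pool.Agent.Helper56.OHS.cub.cell s.G z hparG.h_D hz).2.2.2
    show eq01 (Pool.Agent.Helper28.OHS.cn s.G s.e c ((s.cfa c f al).nm al))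
      (Pool.Agent.Helper28.OHS.cn s.G s.e f ((s.cfa c f al).nm al)) ≠ 0
    rw [hnm, hRc.ct z hz, (hf1 hf).ct z hz, hct]
    simp [eq01]

end Pool.Agent.Helper50.RECT
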