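import Pool.Agent.Helper92.RECT.Goals1

/-!
# RECT, packet SND: soundness of the token machine
-/

namespace Pool.Agent.Helper50.RECT

open Pool.Agent.Helper65.LinSpace Pool.Agent.Helper78.Mpc Pool.Agent.Helper28.Ram
open Pool.Agent.Helper92.RECT

theorem snd (hS : STT_stmt) : SND_stmt := by
  intro P hP hTc
  have hlt : ∀ (c : ℕ × (ℕ → ℕ)) (t : ℕ), Out P c t → ∀ B, c.2 B < 2 ^ P.a := fun c t ho B =>
    (ho.lt B).trans_le (Nat.pow_le_pow_right (by norm_num) hP.ha)
  have key : ∀ T : ℕ, (∀ B, (P.conf T).2 B < 2 ^ P.a) ∧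
      ((∃ t, Out P (P.conf T) t ∧ ∀ i < t, P.fin (P.X i).1 = 0) ∨ (P.conf T).1 = 0 ∨
        ((P.conf T).1 = 1 ∧ ∃ t, P.fin (P.X t).1 ≠ 0 ∧ (∀ i < t, P.fin (P.X i).1 = 0) ∧
          P.fc (P.X t).1 ((P.X t).2 P.al) ≠ 0)) := by
    intro T
    induction T with
    | zero =>
      have h0 := hS.start P hP
      exact ⟨hlt _ _ h0, Or.inl ⟨0, h0, fun i hi => absurd hi (Nat.not_lt_zero i)⟩⟩
    | succ T ih =>
      obtain ⟨hb, ih⟩ := ih
      rcases ih with ⟨t, ho, hf⟩ | h0 | ⟨h1, hcon⟩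
      · by_cases hfin : P.fin (P.X t).1 = 0
        · obtain ⟨m, hm, -, ho', hi, -, -⟩ := hS.step P hP hTc T t ho hfin
          refine ⟨hlt _ _ ho', Or.inl ⟨t + m, ho', fun i hi' => ?_⟩⟩
          by_cases h : i < t
          · exact hf i h
          · exact (hi i (by omega) hi').2
        · obtain ⟨h2, h3, -⟩ := hS.check P hP T t ho hfin
          refine ⟨fun B => by rw [h3]; exact hb B, ?_⟩
          by_cases hfc : P.fc (P.X t).1 ((P.X t).2 P.al) = 0
          · right; left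
            rw [h2, hfc]
            simp [lt01]
          · right; right
            refine ⟨?_, t, hfin, hf, hfc⟩
            rw [h2]
            simp [lt01, Nat.pos_of_ne_zero hfc]
      · have h2 := hS.stop P hP T (by omega) hb
        rw [h2]
        exact ⟨hb, Or.inr (Or.inl h0)⟩
      · have h2 := hS.stop P hP T (by omega) hb
        rw [h2]
        exact ⟨hb, Or.inr (Or.inr ⟨h1, hcon⟩)⟩
  intro T hT
  rcases (key T).2 with ⟨t, ho, -⟩ | h0 | ⟨-, h⟩
  · have := ho.q
    omega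
  · omega
  · exact h

end Pool.Agent.Helper50.RECT
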